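import Pool.Agent.Helper25.LS.Defs

/-!
# Project LS, packet EN: the ultraproduct carries an equivalent norm satisfying the parallelogram
law (for MP_03bcbb_an)
-/

set_option autoImplicit false

open Filter Topology Module

noncomputable section

namespace Pool.Agent.Helper59.LS

open Pool.Agent.Helper25.LS

/-- a seminorm on the subspace `E` that is equivalent to the norm and satisfies the
parallelogram law -/
def IsQ (X : Type) [NormedAddCommGroup X] [NormedSpace ℂ X] (E : Submodule ℂ X) (C : ℝ)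
    (q : X → ℝ) : Prop :=
  (∀ x ∈ E, ‖x‖ ≤ q x ∧ q x ≤ C * ‖x‖) ∧ (∀ x ∈ E, ∀ y ∈ E, q (x + y) ≤ q x + q y) ∧
    (∀ (a : ℂ), ∀ x ∈ E, q (a • x) = ‖a‖ * q x) ∧
    (∀ x ∈ E, ∀ y ∈ E,
      q (x + y) * q (x + y) + q (x - y) * q (x - y) = 2 * (q x * q x + q y * q y))

theorem exists_q (X : Type) [NormedAddCommGroup X] [NormedSpace ℂ X] (E : Submodule ℂ X)
    (C : ℝ) (h : Euc X E C) : ∃ q : X → ℝ, IsQ X E C q := by
  classical
  obtain ⟨m, u, hu⟩ := h
  refine ⟨fun x => if hx : x ∈ E then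
    ‖(u.symm : EuclideanSpace ℂ (Fin m) →L[ℂ] E)‖ * ‖u ⟨x, hx⟩‖ else 0, ?_, ?_, ?_, ?_⟩
  · intro x hx
    simp only [hx, dif_pos]
    constructor
    · have h1 := (u.symm : EuclideanSpace ℂ (Fin m) →L[ℂ] E).le_opNorm (u ⟨x, hx⟩)
      simpa using h1
    · have h1 := (u : E →L[ℂ] EuclideanSpace ℂ (Fin m)).le_opNorm ⟨x, hx⟩
      have h2 : ‖u ⟨x, hx⟩‖ ≤ ‖(u : E →L[ℂ] EuclideanSpace ℂ (Fin m))‖ * ‖x‖ := by
        simpa using h1
      calc ‖(u.symm : EuclideanSpace ℂ (Fin m) →L[ℂ] E)‖ * ‖u ⟨x, hx⟩‖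
          ≤ ‖(u.symm : EuclideanSpace ℂ (Fin m) →L[ℂ] E)‖ *
            (‖(u : E →L[ℂ] EuclideanSpace ℂ (Fin m))‖ * ‖x‖) :=
            mul_le_mul_of_nonneg_left h2 (ContinuousLinearMap.opNorm_nonneg _)
        _ = (‖(u : E →L[ℂ] EuclideanSpace ℂ (Fin m))‖ *
            ‖(u.symm : EuclideanSpace ℂ (Fin m) →L[ℂ] E)‖) * ‖x‖ := by ring
        _ ≤ C * ‖x‖ := mul_le_mul_of_nonneg_right hu (norm_nonneg _)
  · intro x hx y hy
    have hxy : x + y ∈ E := E.add_mem hx hy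
    simp only [hx, hy, hxy, dif_pos]
    have h1 : u ⟨x + y, hxy⟩ = u ⟨x, hx⟩ + u ⟨y, hy⟩ := by
      rw [← map_add]; rfl
    rw [h1, ← mul_add]
    exact mul_le_mul_of_nonneg_left (norm_add_le _ _) (ContinuousLinearMap.opNorm_nonneg _)
  · intro a x hx
    have hax : a • x ∈ E := E.smul_mem a hx
    simp only [hx, hax, dif_pos]
    have h1 : u ⟨a • x, hax⟩ = a • u ⟨x, hx⟩ := by
      rw [← map_smul]; rfl
    rw [h1, norm_smul]
    ring
  · intro x hx y hy
    have hxy : x + y ∈ E := E.add_mem hx hy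
    have hxy' : x - y ∈ E := E.sub_mem hx hy
    simp only [hx, hy, hxy, hxy', dif_pos]
    have h1 : u ⟨x + y, hxy⟩ = u ⟨x, hx⟩ + u ⟨y, hy⟩ := by
      rw [← map_add]; rfl
    have h2 : u ⟨x - y, hxy'⟩ = u ⟨x, hx⟩ - u ⟨y, hy⟩ := by
      rw [← map_sub]; rfl
    rw [h1, h2]
    have h3 := parallelogram_law_with_norm ℂ (u ⟨x, hx⟩) (u ⟨y, hy⟩)
    linear_combination
      (‖(u.symm : EuclideanSpace ℂ (Fin m) →L[ℂ] E)‖ *
        ‖(u.symm : EuclideanSpace ℂ (Fin m) →L[ℂ] E)‖) * h3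

section Main

variable (X : ℕ → Type) [∀ j, NormedAddCommGroup (X j)] [∀ j, NormedSpace ℂ (X j)]

/-- the span of the `j`-th coordinates of the members of `A` -/
def sp (A : Finset (lp X ⊤)) (j : ℕ) : Submodule ℂ (X j) :=
  Submodule.span ℂ ((fun x : lp X ⊤ => x j) '' (A : Set (lp X ⊤)))

theorem mem_sp (A : Finset (lp X ⊤)) (j : ℕ) (x : lp X ⊤) (hx : x ∈ A) : x j ∈ sp X A j :=
  Submodule.subset_span ⟨x, hx, rfl⟩

theorem fd_sp (A : Finset (lp X ⊤)) (j : ℕ) : FiniteDimensional ℂ (sp X A j) :=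
  FiniteDimensional.span_of_finite ℂ (A.finite_toSet.image _)

theorem rank_sp (A : Finset (lp X ⊤)) (j : ℕ) : finrank ℂ (sp X A j) ≤ A.card := by
  classical
  have h1 := finrank_span_finset_le_card (R := ℂ) (A.image (fun x : lp X ⊤ => x j))
  have h2 : ((A.image (fun x : lp X ⊤ => x j) : Finset (X j)) : Set (X j)) =
      (fun x : lp X ⊤ => x j) '' (A : Set (lp X ⊤)) := by
    simp
  rw [h2] at h1
  exact h1.trans Finset.card_image_le

theorem exists_qq (C : ℝ) (h : ∀ j, DLe (X j) j C) :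
    ∃ q : ∀ (_ : Finset (lp X ⊤)) (j : ℕ), X j → ℝ,
      ∀ A j, A.card ≤ j → IsQ (X j) (sp X A j) C (q A j) := by
  have key : ∀ (A : Finset (lp X ⊤)) (j : ℕ), ∃ q : X j → ℝ,
      A.card ≤ j → IsQ (X j) (sp X A j) C q := by
    intro A j
    by_cases hA : A.card ≤ j
    · obtain ⟨q, hq⟩ := exists_q (X j) (sp X A j) C
        (h j (sp X A j) (fd_sp X A j) ((rank_sp X A j).trans hA))
      exact ⟨q, fun _ => hq⟩
    · exact ⟨fun _ => 0, fun h' => absurd h' hA⟩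
  choose q hq using key
  exact ⟨q, hq⟩

theorem C_nonneg (C : ℝ) (h : ∀ j, DLe (X j) j C) : 0 ≤ C := by
  obtain ⟨m, u, hu⟩ := h 0 ⊥ inferInstance (by simp)
  exact le_trans (by positivity) hu

end Main

/-- **EN.** -/
theorem en : S_EN := by
  intro X _ _ U Y _ _ D C hU hD
  classical
  have hC : 0 ≤ C := C_nonneg X C hD
  obtain ⟨q, hq⟩ := exists_qq X C hD
  -- the ultrafilter
  let F0 : Filter (Finset (lp X ⊤) × ℕ) :=
    (atTop : Filter (Finset (lp X ⊤))).curry (U : Filter ℕ)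
  have hne : F0.NeBot := by
    rw [Filter.neBot_iff]
    intro h0
    have h1 : ∀ᶠ p in F0, False := by rw [h0]; exact Filter.eventually_bot
    rw [Filter.eventually_curry_iff] at h1
    obtain ⟨A, hA⟩ := h1.exists
    obtain ⟨j, hj⟩ := hA.exists
    exact hj
  let W : Ultrafilter (Finset (lp X ⊤) × ℕ) := Ultrafilter.of F0
  have hW : (W : Filter (Finset (lp X ⊤) × ℕ)) ≤ F0 := Ultrafilter.of_le F0
  -- eventual membership
  have hmem : ∀ B : Finset (lp X ⊤),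
      ∀ᶠ p in (W : Filter (Finset (lp X ⊤) × ℕ)), B ⊆ p.1 ∧ p.1.card ≤ p.2 := by
    intro B
    refine hW ?_
    change ∀ᶠ p in F0, B ⊆ p.1 ∧ p.1.card ≤ p.2
    rw [Filter.eventually_curry_iff]
    filter_upwards [eventually_ge_atTop B] with A hA
    have h1 : ∀ᶠ j in (U : Filter ℕ), A.card ≤ j := hU (eventually_ge_atTop A.card)
    filter_upwards [h1] with j hj
    exact ⟨hA, hj⟩
  have hsnd : Tendsto Prod.snd (W : Filter (Finset (lp X ⊤) × ℕ)) (U : Filter ℕ) := by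
    refine Tendsto.mono_left ?_ hW
    intro s hs
    change ∀ᶠ p in F0, p.2 ∈ s
    rw [Filter.eventually_curry_iff]
    exact Eventually.of_forall fun _ => hs
  have hnorm : ∀ x : lp X ⊤, Tendsto (fun p : Finset (lp X ⊤) × ℕ => ‖x p.2‖)
      (W : Filter (Finset (lp X ⊤) × ℕ)) (𝓝 ‖D.π x‖) := fun x => (D.lim x).comp hsnd
  -- existence of the limits
  have hlim : ∀ x : lp X ⊤, ∃ L : ℝ, Tendsto (fun p : Finset (lp X ⊤) × ℕ => q p.1 p.2 (x p.2))
      (W : Filter (Finset (lp X ⊤) × ℕ)) (𝓝 L) := by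
    intro x
    have h1 : ∀ᶠ p in (W : Filter (Finset (lp X ⊤) × ℕ)),
        q p.1 p.2 (x p.2) ∈ Set.Icc (0 : ℝ) (C * ‖x‖) := by
      filter_upwards [hmem {x}] with p hp
      have hx : x p.2 ∈ sp X p.1 p.2 := mem_sp X p.1 p.2 x (hp.1 (by simp))
      have h2 := (hq p.1 p.2 hp.2).1 (x p.2) hx
      refine ⟨le_trans (norm_nonneg _) h2.1, h2.2.trans ?_⟩
      exact mul_le_mul_of_nonneg_left (lp.norm_apply_le_norm (by simp) x p.2) hC
    have h2 : IsCompact (Set.Icc (0 : ℝ) (C * ‖x‖)) := isCompact_Icc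
    obtain ⟨L, _, hL⟩ := h2.ultrafilter_le_nhds
      (W.map (fun p : Finset (lp X ⊤) × ℕ => q p.1 p.2 (x p.2)))
      (by
        rw [Filter.le_principal_iff]
        exact h1)
    exact ⟨L, hL⟩
  choose N' hN' using hlim
  -- properties of N'
  have hB : ∀ x, ‖D.π x‖ ≤ N' x ∧ N' x ≤ C * ‖D.π x‖ := by
    intro x
    constructor
    · refine le_of_tendsto_of_tendsto (hnorm x) (hN' x) ?_
      filter_upwards [hmem {x}] with p hp
      have hx : x p.2 ∈ sp X p.1 p.2 := mem_sp X p.1 p.2 x (hp.1 (by simp))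
      exact ((hq p.1 p.2 hp.2).1 (x p.2) hx).1
    · refine le_of_tendsto_of_tendsto (hN' x) ((hnorm x).const_mul C) ?_
      filter_upwards [hmem {x}] with p hp
      have hx : x p.2 ∈ sp X p.1 p.2 := mem_sp X p.1 p.2 x (hp.1 (by simp))
      exact ((hq p.1 p.2 hp.2).1 (x p.2) hx).2
  have hadd : ∀ x y, N' (x + y) ≤ N' x + N' y := by
    intro x y
    refine le_of_tendsto_of_tendsto (hN' (x + y)) ((hN' x).add (hN' y)) ?_
    filter_upwards [hmem {x, y}] with p hp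
    have hx : x p.2 ∈ sp X p.1 p.2 := mem_sp X p.1 p.2 x (hp.1 (by simp))
    have hy : y p.2 ∈ sp X p.1 p.2 := mem_sp X p.1 p.2 y (hp.1 (by simp))
    exact (hq p.1 p.2 hp.2).2.1 (x p.2) hx (y p.2) hy
  have hsmul : ∀ (a : ℂ) x, N' (a • x) = ‖a‖ * N' x := by
    intro a x
    refine tendsto_nhds_unique_of_eventuallyEq (hN' (a • x)) ((hN' x).const_mul ‖a‖) ?_
    filter_upwards [hmem {x}] with p hp
    have hx : x p.2 ∈ sp X p.1 p.2 := mem_sp X p.1 p.2 x (hp.1 (by simp))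
    exact (hq p.1 p.2 hp.2).2.2.1 a (x p.2) hx
  have hpar : ∀ x y, N' (x + y) * N' (x + y) + N' (x - y) * N' (x - y) =
      2 * (N' x * N' x + N' y * N' y) := by
    intro x y
    refine tendsto_nhds_unique_of_eventuallyEq
      (((hN' (x + y)).mul (hN' (x + y))).add ((hN' (x - y)).mul (hN' (x - y))))
      ((((hN' x).mul (hN' x)).add ((hN' y).mul (hN' y))).const_mul 2) ?_
    filter_upwards [hmem {x, y}] with p hp
    have hx : x p.2 ∈ sp X p.1 p.2 := mem_sp X p.1 p.2 x (hp.1 (by simp))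
    have hy : y p.2 ∈ sp X p.1 p.2 := mem_sp X p.1 p.2 y (hp.1 (by simp))
    exact (hq p.1 p.2 hp.2).2.2.2 (x p.2) hx (y p.2) hy
  -- N' depends only on the class
  have hcl1 : ∀ x x', D.π x = D.π x' → N' x ≤ N' x' := by
    intro x x' h
    have h1 := hadd x' (x - x')
    have h2 : x' + (x - x') = x := by abel
    rw [h2] at h1
    have h3 := (hB (x - x')).2
    rw [map_sub, h, sub_self, norm_zero, mul_zero] at h3
    linarith
  have hcl : ∀ x x', D.π x = D.π x' → N' x = N' x' := fun x x' h =>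
    le_antisymm (hcl1 x x' h) (hcl1 x' x h.symm)
  choose s hs using D.surj
  refine ⟨fun y => N' (s y), ?_, ?_, ?_, ?_⟩
  · intro y
    have h := hB (s y)
    rw [hs] at h
    exact h
  · intro y z
    have h1 : N' (s (y + z)) = N' (s y + s z) := hcl _ _ (by rw [map_add, hs, hs, hs])
    change N' (s (y + z)) ≤ N' (s y) + N' (s z)
    rw [h1]
    exact hadd _ _
  · intro a y
    have h1 : N' (s (a • y)) = N' (a • s y) := hcl _ _ (by rw [map_smul, hs, hs])
    change N' (s (a • y)) = ‖a‖ * N' (s y)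
    rw [h1]
    exact hsmul _ _
  · intro y z
    have h1 : N' (s (y + z)) = N' (s y + s z) := hcl _ _ (by rw [map_add, hs, hs, hs])
    have h2 : N' (s (y - z)) = N' (s y - s z) := hcl _ _ (by rw [map_sub, hs, hs, hs])
    change N' (s (y + z)) * N' (s (y + z)) + N' (s (y - z)) * N' (s (y - z)) =
      2 * (N' (s y) * N' (s y) + N' (s z) * N' (s z))
    rw [h1, h2]
    exact hpar _ _

end Pool.Agent.Helper59.LS
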